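import Mathlib
import Pool.Agent.Helper540.Holo

/-!
Division by `w` of holomorphic functions of two variables.
-/

set_option autoImplicit false

open Set Filter Topology Metric

namespace Pool.Agent.V1172.SK

/-- `(G(z,w) - G(z,0)) / w`. -/
noncomputable def S (G : ℂ × ℂ → ℂ) : ℂ × ℂ → ℂ := fun q => dslope (fun w => G (q.1, w)) 0 q.2

theorem S_spec (G : ℂ × ℂ → ℂ) (z w : ℂ) : G (z, w) = G (z, 0) + w * S G (z, w) := by
  have := sub_smul_dslope (fun w => G (z, w)) 0 w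
  simp only [sub_zero, smul_eq_mul] at this
  have h : S G (z, w) = dslope (fun w => G (z, w)) 0 w := rfl
  rw [h, this]
  ring

theorem slice_diff {G : ℂ × ℂ → ℂ} {r1 r2 : ℝ} (hG : DifferentiableOn ℂ G (ball 0 r1 ×ˢ ball 0 r2))
    {z : ℂ} (hz : z ∈ ball (0 : ℂ) r1) : DifferentiableOn ℂ (fun w => G (z, w)) (ball 0 r2) := by
  have hopen : IsOpen (ball (0 : ℂ) r1 ×ˢ ball (0 : ℂ) r2) := isOpen_ball.prod isOpen_ball
  intro w hw
  have h1 : DifferentiableAt ℂ G (z, w) :=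
    (hG _ ⟨hz, hw⟩).differentiableAt (hopen.mem_nhds ⟨hz, hw⟩)
  have h2 : DifferentiableAt ℂ (fun w : ℂ => (z, w)) w := by fun_prop
  exact (h1.comp w h2).differentiableWithinAt

theorem S_bound {G : ℂ × ℂ → ℂ} {r1 r2 M : ℝ}
    (hG : DifferentiableOn ℂ G (ball 0 r1 ×ˢ ball 0 r2))
    (hM : ∀ q ∈ ball (0 : ℂ) r1 ×ˢ ball (0 : ℂ) r2, ‖G q‖ ≤ M) :
    ∀ q ∈ ball (0 : ℂ) r1 ×ˢ ball (0 : ℂ) r2, ‖S G q‖ ≤ 2 * M / r2 := by
  rintro ⟨z, w⟩ ⟨hz, hw⟩
  have hr2 : 0 < r2 := (norm_nonneg w).trans_lt (mem_ball_zero_iff.1 hw)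
  refine Complex.norm_dslope_le_div_of_mapsTo_ball (slice_diff hG hz) ?_ hw
  intro x hx
  rw [mem_closedBall_iff_norm]
  have h1 := hM (z, x) ⟨hz, hx⟩
  have h2 := hM (z, 0) ⟨hz, mem_ball_self hr2⟩
  calc ‖G (z, x) - G (z, 0)‖ ≤ ‖G (z, x)‖ + ‖G (z, 0)‖ := norm_sub_le _ _
    _ ≤ 2 * M := by linarith

theorem S_sub {G G' : ℂ × ℂ → ℂ} {r1 r2 : ℝ}
    (hG : DifferentiableOn ℂ G (ball 0 r1 ×ˢ ball 0 r2))
    (hG' : DifferentiableOn ℂ G' (ball 0 r1 ×ˢ ball 0 r2)) :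
    ∀ q ∈ ball (0 : ℂ) r1 ×ˢ ball (0 : ℂ) r2, S G q - S G' q = S (fun q => G q - G' q) q := by
  rintro ⟨z, w⟩ ⟨hz, hw⟩
  have hr2 : 0 < r2 := (norm_nonneg w).trans_lt (mem_ball_zero_iff.1 hw)
  show dslope (fun w => G (z, w)) 0 w - dslope (fun w => G' (z, w)) 0 w =
    dslope (fun w => G (z, w) - G' (z, w)) 0 w
  by_cases hw0 : w = 0
  · subst hw0
    rw [dslope_same, dslope_same, dslope_same]
    have h1 : DifferentiableAt ℂ (fun w => G (z, w)) 0 :=
      (slice_diff hG hz _ (mem_ball_self hr2)).differentiableAt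
        (isOpen_ball.mem_nhds (mem_ball_self hr2))
    have h2 : DifferentiableAt ℂ (fun w => G' (z, w)) 0 :=
      (slice_diff hG' hz _ (mem_ball_self hr2)).differentiableAt
        (isOpen_ball.mem_nhds (mem_ball_self hr2))
    exact (deriv_fun_sub h1 h2).symm
  · rw [dslope_of_ne _ hw0, dslope_of_ne _ hw0, dslope_of_ne _ hw0, slope_def_field,
      slope_def_field, slope_def_field]
    ring

/-- Joint holomorphy of the quotient near `w = 0`. -/
theorem S_diff_zero {G : ℂ × ℂ → ℂ} {U : Set (ℂ × ℂ)} (hU : IsOpen U)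
    (hG : DifferentiableOn ℂ G U) {z0 : ℂ} (h0 : (z0, 0) ∈ U) :
    DifferentiableAt ℂ (S G) (z0, 0) := by
  obtain ⟨R, hR, M, hM0, hsub, hM⟩ := Pool.Agent.Helper540.exists_bound hU hG h0
  -- Riemann sums
  let e : ℂ × ℂ := (0, 1)
  let F : ℕ → ℂ × ℂ → ℂ := fun k q =>
    (1 / ((k : ℂ) + 1)) * ∑ j ∈ Finset.range (k + 1),
      fderiv ℂ G (q.1, ((j : ℂ) / ((k : ℂ) + 1)) * q.2) e
  have hR4 : 0 < R / 2 := by linarith
  have hfd := Pool.Agent.Helper540.differentiableOn_fderiv_apply hU hG e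
  have hmem : ∀ q ∈ ball ((z0, 0) : ℂ × ℂ) (R / 2), ∀ t : ℂ, ‖t‖ ≤ 1 →
      (q.1, t * q.2) ∈ ball ((z0, 0) : ℂ × ℂ) (R / 2) := by
    intro q hq t ht
    rw [mem_ball_iff_norm, Prod.norm_def, max_lt_iff] at hq ⊢
    refine ⟨hq.1, ?_⟩
    have h1 := hq.2
    simp only [Prod.snd_sub, sub_zero] at h1 ⊢
    rw [norm_mul]
    exact (mul_le_of_le_one_left (norm_nonneg _) ht).trans_lt h1
  have hjk : ∀ k j : ℕ, j ∈ Finset.range (k + 1) → ‖(j : ℂ) / ((k : ℂ) + 1)‖ ≤ 1 := by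
    intro k j hj
    have h1 : (j : ℝ) ≤ (k : ℝ) + 1 := by
      have := Finset.mem_range.1 hj
      exact_mod_cast this.le
    have h2 : ‖(k : ℂ) + 1‖ = (k : ℝ) + 1 := by
      have : ((k : ℂ) + 1) = ((k + 1 : ℕ) : ℂ) := by push_cast; rfl
      rw [this, Complex.norm_natCast]; push_cast; rfl
    rw [norm_div, Complex.norm_natCast, h2, div_le_one (by positivity)]
    exact h1
  have hF : ∀ k, DifferentiableOn ℂ (F k) (ball ((z0, 0) : ℂ × ℂ) (R / 2)) := by
    intro k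
    refine DifferentiableOn.const_mul ?_ _
    refine DifferentiableOn.fun_sum fun j hj => ?_
    intro q hq
    have hm : (q.1, ((j : ℂ) / ((k : ℂ) + 1)) * q.2) ∈ U :=
      hsub (ball_subset_ball (by linarith) (hmem q hq _ (hjk k j hj)))
    have h1 := (hfd _ hm).differentiableAt (hU.mem_nhds hm)
    have h2 : DifferentiableAt ℂ (fun q : ℂ × ℂ => (q.1, ((j : ℂ) / ((k : ℂ) + 1)) * q.2)) q := by
      fun_prop
    exact (h1.comp q h2).differentiableWithinAt
  -- the estimate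
  have hest : ∀ k, ∀ q ∈ ball ((z0, 0) : ℂ × ℂ) (R / 2),
      ‖S G q - F k q‖ ≤ 16 * M / R ^ 2 * (R / 2) / ((k : ℝ) + 1) := by
    intro k q hq
    obtain ⟨z, w⟩ := q
    have hk : ((k : ℂ) + 1) ≠ 0 := by exact_mod_cast Nat.succ_ne_zero k
    have hkn : ‖(k : ℂ) + 1‖ = (k : ℝ) + 1 := by
      have : ((k : ℂ) + 1) = ((k + 1 : ℕ) : ℂ) := by push_cast; rfl
      rw [this, Complex.norm_natCast]; push_cast; rfl
    have hwR : ‖w‖ < R / 2 := by
      rw [mem_ball_iff_norm, Prod.norm_def, max_lt_iff] at hq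
      simpa using hq.2
    by_cases hw0 : w = 0
    · subst hw0
      have h1 : S G (z, 0) = fderiv ℂ G (z, 0) e := by
        show dslope (fun w => G (z, w)) 0 0 = _
        rw [dslope_same]
        have hm : (z, (0 : ℂ)) ∈ U := hsub (ball_subset_ball (by linarith) hq)
        have h2 : HasFDerivAt G (fderiv ℂ G (z, 0)) (z, 0) :=
          ((hG _ hm).differentiableAt (hU.mem_nhds hm)).hasFDerivAt
        have h3 : HasDerivAt (fun w : ℂ => (z, w)) e 0 :=
          (hasDerivAt_const (0 : ℂ) z).prodMk (hasDerivAt_id (0 : ℂ))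
        exact (h2.comp_hasDerivAt (0 : ℂ) h3).deriv
      have h2 : F k (z, 0) = fderiv ℂ G (z, 0) e := by
        show (1 / ((k : ℂ) + 1)) * ∑ j ∈ Finset.range (k + 1),
          fderiv ℂ G (z, ((j : ℂ) / ((k : ℂ) + 1)) * 0) e = _
        simp only [mul_zero, Finset.sum_const, Finset.card_range, nsmul_eq_mul]
        push_cast
        field_simp
      rw [h1, h2, sub_self, norm_zero]
      positivity
    · have hsum : w * S G (z, w) = ∑ j ∈ Finset.range (k + 1),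
          (G (z, (((j + 1 : ℕ) : ℂ) / ((k : ℂ) + 1)) * w) - G (z, ((j : ℂ) / ((k : ℂ) + 1)) * w)) := by
        rw [Finset.sum_range_sub (fun j : ℕ => G (z, ((j : ℂ) / ((k : ℂ) + 1)) * w))]
        have h1 : (((k + 1 : ℕ) : ℂ) / ((k : ℂ) + 1)) * w = w := by
          push_cast; field_simp
        have h2 : (((0 : ℕ) : ℂ) / ((k : ℂ) + 1)) * w = 0 := by simp
        rw [h1, h2]
        have := S_spec G z w
        rw [this]; ring
      have hterm : ∀ j ∈ Finset.range (k + 1),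
          ‖(G (z, (((j + 1 : ℕ) : ℂ) / ((k : ℂ) + 1)) * w) - G (z, ((j : ℂ) / ((k : ℂ) + 1)) * w)) -
            (w / ((k : ℂ) + 1)) * fderiv ℂ G (z, ((j : ℂ) / ((k : ℂ) + 1)) * w) e‖ ≤
            4 * M * ((‖w‖ / ((k : ℝ) + 1)) / (R / 2)) ^ 2 := by
        intro j hj
        set a : ℂ × ℂ := (z, ((j : ℂ) / ((k : ℂ) + 1)) * w) with ha
        set b : ℂ × ℂ := (z, (((j + 1 : ℕ) : ℂ) / ((k : ℂ) + 1)) * w) with hb
        have hba : b - a = (w / ((k : ℂ) + 1)) • e := by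
          rw [ha, hb]
          ext
          · simp [e]
          · simp only [Prod.snd_sub, e, Prod.smul_mk, smul_eq_mul, mul_one]
            push_cast
            field_simp
            ring
        have hnba : ‖b - a‖ = ‖w‖ / ((k : ℝ) + 1) := by
          rw [hba, norm_smul, norm_div, hkn]
          simp [e, Prod.norm_def]
        have ham : a ∈ ball ((z0, 0) : ℂ × ℂ) (R / 2) := hmem _ hq _ (hjk k j hj)
        have hsub2 : ball a (R / 2) ⊆ ball ((z0, 0) : ℂ × ℂ) R :=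
          Pool.Agent.Helper540.ball_half_subset ham
        have hbm : b ∈ ball a (R / 2) := by
          rw [mem_ball_iff_norm, hnba]
          refine (div_le_self (norm_nonneg _) ?_).trans_lt hwR
          have : (0 : ℝ) ≤ k := Nat.cast_nonneg k
          linarith
        have := Pool.Agent.Helper540.norm_sub_sub_fderiv_le (f := G) (c := a) (R := R / 2) (M := M)
          hR4 (hG.mono (hsub2.trans hsub)) (fun x hx => hM x (hsub2 hx)) hbm
        rw [hnba] at this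
        have h3 : fderiv ℂ G a (b - a) = (w / ((k : ℂ) + 1)) * fderiv ℂ G a e := by
          rw [hba, map_smul, smul_eq_mul]
        rw [h3] at this
        exact this
      have hdiff : w * (S G (z, w) - F k (z, w)) = ∑ j ∈ Finset.range (k + 1),
          ((G (z, (((j + 1 : ℕ) : ℂ) / ((k : ℂ) + 1)) * w) - G (z, ((j : ℂ) / ((k : ℂ) + 1)) * w)) -
            (w / ((k : ℂ) + 1)) * fderiv ℂ G (z, ((j : ℂ) / ((k : ℂ) + 1)) * w) e) := by
        rw [Finset.sum_sub_distrib, ← hsum, ← Finset.mul_sum]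
        show w * (S G (z, w) - (1 / ((k : ℂ) + 1)) * ∑ j ∈ Finset.range (k + 1),
          fderiv ℂ G (z, ((j : ℂ) / ((k : ℂ) + 1)) * w) e) = _
        ring
      have hnorm : ‖w‖ * ‖S G (z, w) - F k (z, w)‖ ≤
          ((k : ℝ) + 1) * (4 * M * ((‖w‖ / ((k : ℝ) + 1)) / (R / 2)) ^ 2) := by
        rw [← norm_mul, hdiff]
        refine (norm_sum_le_of_le _ hterm).trans ?_
        rw [Finset.sum_const, Finset.card_range, nsmul_eq_mul]
        push_cast
        exact le_rfl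
      have hwpos : 0 < ‖w‖ := norm_pos_iff.2 hw0
      have h5 : ‖S G (z, w) - F k (z, w)‖ ≤ 16 * M / R ^ 2 * ‖w‖ / ((k : ℝ) + 1) := by
        have h6 : ((k : ℝ) + 1) * (4 * M * ((‖w‖ / ((k : ℝ) + 1)) / (R / 2)) ^ 2) =
            ‖w‖ * (16 * M / R ^ 2 * ‖w‖ / ((k : ℝ) + 1)) := by
          have : (k : ℝ) + 1 ≠ 0 := by positivity
          field_simp
          ring
        rw [h6] at hnorm
        exact le_of_mul_le_mul_left hnorm hwpos
      refine h5.trans ?_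
      gcongr
  have hlim : TendstoUniformlyOn F (S G) atTop (ball ((z0, 0) : ℂ × ℂ) (R / 2)) := by
    rw [Metric.tendstoUniformlyOn_iff]
    intro ε hε
    obtain ⟨N, hN⟩ := exists_nat_gt (16 * M / R ^ 2 * (R / 2) / ε)
    filter_upwards [eventually_ge_atTop N] with k hk q hq
    rw [dist_eq_norm]
    refine (hest k q hq).trans_lt ?_
    rw [div_lt_iff₀ (by positivity)]
    rw [div_lt_iff₀ hε] at hN
    have : (N : ℝ) ≤ k := by exact_mod_cast hk
    nlinarith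
  have := Pool.Agent.Helper540.differentiableOn_of_uniform_limit hF hlim
  exact this.differentiableAt (ball_mem_nhds _ (by linarith))

theorem S_diff {G : ℂ × ℂ → ℂ} {r1 r2 : ℝ} (hG : DifferentiableOn ℂ G (ball 0 r1 ×ˢ ball 0 r2)) :
    DifferentiableOn ℂ (S G) (ball 0 r1 ×ˢ ball 0 r2) := by
  have hopen : IsOpen (ball (0 : ℂ) r1 ×ˢ ball (0 : ℂ) r2) := isOpen_ball.prod isOpen_ball
  rintro ⟨z, w⟩ ⟨hz, hw⟩
  have hr2 : 0 < r2 := (norm_nonneg w).trans_lt (mem_ball_zero_iff.1 hw)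
  by_cases hw0 : w = 0
  · subst hw0
    exact (S_diff_zero hopen hG ⟨hz, hw⟩).differentiableWithinAt
  · have h1 : DifferentiableAt ℂ G (z, w) :=
      (hG _ ⟨hz, hw⟩).differentiableAt (hopen.mem_nhds ⟨hz, hw⟩)
    have hm0 : (z, (0 : ℂ)) ∈ ball (0 : ℂ) r1 ×ˢ ball (0 : ℂ) r2 := ⟨hz, mem_ball_self hr2⟩
    have h2 : DifferentiableAt ℂ G (z, 0) :=
      (hG _ hm0).differentiableAt (hopen.mem_nhds hm0)
    have h3 : DifferentiableAt ℂ (fun q : ℂ × ℂ => G (q.1, 0)) (z, w) := by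
      have h4 : DifferentiableAt ℂ (fun q : ℂ × ℂ => (q.1, (0 : ℂ))) (z, w) := by fun_prop
      exact DifferentiableAt.comp (z, w) (f := fun q : ℂ × ℂ => (q.1, (0 : ℂ))) h2 h4
    have h5 : DifferentiableAt ℂ (fun q : ℂ × ℂ => (G q - G (q.1, 0)) * (q.2)⁻¹) (z, w) :=
      (h1.sub h3).mul (differentiableAt_snd.fun_inv hw0)
    have h6 : S G =ᶠ[𝓝 (z, w)] fun q : ℂ × ℂ => (G q - G (q.1, 0)) * (q.2)⁻¹ := by
      have h7 : ∀ᶠ q : ℂ × ℂ in 𝓝 (z, w), q.2 ≠ 0 :=
        (continuous_snd.continuousAt (x := (z, w))).eventually_ne hw0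
      filter_upwards [h7] with q hq
      have := S_spec G q.1 q.2
      have h8 : G q = G (q.1, 0) + q.2 * S G q := this
      rw [h8]
      field_simp
      ring
    exact (h5.congr_of_eventuallyEq h6).differentiableWithinAt

end Pool.Agent.V1172.SK
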