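import Pool.Agent.V1172.SK.Dslope

/-!
A fixed point theorem for bounded holomorphic functions of two variables and the conjugacy equation.
-/

set_option autoImplicit false

open Set Filter Topology Metric

namespace Pool.Agent.V1172.SK

theorem fixed_point {D : Set (ℂ × ℂ)} (hD : IsOpen D) {C : ℝ} (hC : 0 ≤ C)
    (T : (ℂ × ℂ → ℂ) → (ℂ × ℂ → ℂ))
    (h1 : ∀ G, DifferentiableOn ℂ G D → (∀ q ∈ D, ‖G q‖ ≤ C) →
      DifferentiableOn ℂ (T G) D ∧ ∀ q ∈ D, ‖T G q‖ ≤ C)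
    (h2 : ∀ G G', DifferentiableOn ℂ G D → (∀ q ∈ D, ‖G q‖ ≤ C) → DifferentiableOn ℂ G' D →
      (∀ q ∈ D, ‖G' q‖ ≤ C) → ∀ Δ : ℝ, 0 ≤ Δ → (∀ q ∈ D, ‖G q - G' q‖ ≤ Δ) →
        ∀ q ∈ D, ‖T G q - T G' q‖ ≤ Δ / 2) :
    ∃ G, DifferentiableOn ℂ G D ∧ (∀ q ∈ D, ‖G q‖ ≤ C) ∧ ∀ q ∈ D, T G q = G q := by
  let u : ℕ → (ℂ × ℂ → ℂ) := fun k => T^[k] (fun _ => 0)
  have hu0 : u 0 = fun _ => 0 := rfl
  have hus : ∀ k, u (k + 1) = T (u k) := fun k => Function.iterate_succ_apply' T k _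
  have hcl : ∀ k, DifferentiableOn ℂ (u k) D ∧ ∀ q ∈ D, ‖u k q‖ ≤ C := by
    intro k
    induction k with
    | zero =>
      rw [hu0]
      exact ⟨differentiableOn_const _, fun q _ => by simpa using hC⟩
    | succ k ih =>
      rw [hus]
      exact h1 _ ih.1 ih.2
  have hdist : ∀ k, ∀ q ∈ D, ‖u (k + 1) q - u k q‖ ≤ C * (1 / 2) ^ k := by
    intro k
    induction k with
    | zero =>
      intro q hq
      rw [hu0]
      simpa using (hcl 1).2 q hq
    | succ k ih =>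
      intro q hq
      have := h2 (u (k + 1)) (u k) (hcl _).1 (hcl _).2 (hcl _).1 (hcl _).2 (C * (1 / 2) ^ k)
        (by positivity) ih q hq
      rw [hus (k + 1), hus k]
      rw [hus k] at this
      refine this.trans (le_of_eq ?_)
      rw [pow_succ]; ring
  have hcau : ∀ q ∈ D, ∃ l, Tendsto (fun k => u k q) atTop (𝓝 l) := by
    intro q hq
    refine cauchySeq_tendsto_of_complete (cauchySeq_of_le_geometric (1 / 2) C (by norm_num) ?_)
    intro k
    rw [dist_comm, dist_eq_norm]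
    exact hdist k q hq
  choose! G hG using hcau
  have hGd : ∀ k, ∀ q ∈ D, ‖u k q - G q‖ ≤ 2 * C * (1 / 2) ^ k := by
    intro k q hq
    have := dist_le_of_le_geometric_of_tendsto (1 / 2) C (by norm_num)
      (f := fun k => u k q) (fun k => by rw [dist_comm, dist_eq_norm]; exact hdist k q hq)
      (hG q hq) k
    rw [dist_eq_norm] at this
    refine this.trans (le_of_eq ?_)
    ring
  have hpow : Tendsto (fun k : ℕ => 2 * C * (1 / 2 : ℝ) ^ k) atTop (𝓝 0) := by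
    have := (tendsto_pow_atTop_nhds_zero_of_lt_one (r := (1 / 2 : ℝ)) (by norm_num)
      (by norm_num)).const_mul (2 * C)
    simpa using this
  have hunif : TendstoUniformlyOn u G atTop D := by
    rw [Metric.tendstoUniformlyOn_iff]
    intro ε hε
    filter_upwards [hpow.eventually (gt_mem_nhds hε)] with k hk q hq
    rw [dist_comm, dist_eq_norm]
    exact (hGd k q hq).trans_lt hk
  have hGdiff : DifferentiableOn ℂ G D := by
    intro q hq
    obtain ⟨R, hR, hRD⟩ := Metric.isOpen_iff.1 hD q hq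
    have := Pool.Agent.Helper540.differentiableOn_of_uniform_limit
      (fun k => (hcl k).1.mono hRD) (hunif.mono hRD)
    exact (this.differentiableAt (ball_mem_nhds _ (by linarith))).differentiableWithinAt
  have hGC : ∀ q ∈ D, ‖G q‖ ≤ C := fun q hq =>
    le_of_tendsto (hG q hq).norm (Eventually.of_forall fun k => (hcl k).2 q hq)
  refine ⟨G, hGdiff, hGC, fun q hq => ?_⟩
  -- `T (u k) → T G` and `u (k+1) → G`
  have h3 : ∀ k, ‖u (k + 1) q - T G q‖ ≤ 2 * C * (1 / 2) ^ k / 2 := by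
    intro k
    rw [hus]
    exact h2 (u k) G (hcl _).1 (hcl _).2 hGdiff hGC _ (by positivity) (hGd k) q hq
  have h4 : Tendsto (fun k => u (k + 1) q) atTop (𝓝 (T G q)) := by
    rw [tendsto_iff_norm_sub_tendsto_zero]
    refine squeeze_zero (fun _ => norm_nonneg _) h3 ?_
    simpa using hpow.div_const 2
  exact tendsto_nhds_unique h4 ((tendsto_add_atTop_iff_nat 1).2 (hG q hq))

/-! ### Iterated division -/

theorem iter_diff {G : ℂ × ℂ → ℂ} {r1 r2 : ℝ} (hG : DifferentiableOn ℂ G (ball 0 r1 ×ˢ ball 0 r2))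
    (j : ℕ) : DifferentiableOn ℂ (S^[j] G) (ball 0 r1 ×ˢ ball 0 r2) := by
  induction j with
  | zero => exact hG
  | succ j ih =>
    rw [Function.iterate_succ_apply']
    exact S_diff ih

theorem iter_sub {G G' : ℂ × ℂ → ℂ} {r1 r2 Δ : ℝ}
    (hG : DifferentiableOn ℂ G (ball 0 r1 ×ˢ ball 0 r2))
    (hG' : DifferentiableOn ℂ G' (ball 0 r1 ×ˢ ball 0 r2))
    (h : ∀ q ∈ ball (0 : ℂ) r1 ×ˢ ball (0 : ℂ) r2, ‖G q - G' q‖ ≤ Δ) (j : ℕ) :
    ∀ q ∈ ball (0 : ℂ) r1 ×ˢ ball (0 : ℂ) r2,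
      ‖S^[j] G q - S^[j] G' q‖ ≤ (2 / r2) ^ j * Δ := by
  induction j with
  | zero =>
    intro q hq
    simpa using h q hq
  | succ j ih =>
    intro q hq
    rw [Function.iterate_succ_apply', Function.iterate_succ_apply',
      S_sub (iter_diff hG j) (iter_diff hG' j) q hq]
    have := S_bound ((iter_diff hG j).sub (iter_diff hG' j)) ih q hq
    refine this.trans (le_of_eq ?_)
    rw [pow_succ]; ring

theorem S_zero : S (fun _ => 0) = fun _ => 0 := by
  ext q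
  show dslope (fun _ => (0 : ℂ)) 0 q.2 = 0
  by_cases h : q.2 = 0
  · rw [h, dslope_same]; simp
  · rw [dslope_of_ne _ h, slope_def_field]; simp

theorem iter_zero (j : ℕ) : S^[j] (fun _ => 0) = fun _ => 0 := by
  induction j with
  | zero => rfl
  | succ j ih => rw [Function.iterate_succ_apply', ih, S_zero]

theorem iter_bound {G : ℂ × ℂ → ℂ} {r1 r2 M : ℝ}
    (hG : DifferentiableOn ℂ G (ball 0 r1 ×ˢ ball 0 r2))
    (h : ∀ q ∈ ball (0 : ℂ) r1 ×ˢ ball (0 : ℂ) r2, ‖G q‖ ≤ M) (j : ℕ) :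
    ∀ q ∈ ball (0 : ℂ) r1 ×ˢ ball (0 : ℂ) r2, ‖S^[j] G q‖ ≤ (2 / r2) ^ j * M := by
  intro q hq
  have := iter_sub hG (G' := fun _ => 0) (differentiableOn_const _)
    (fun q hq => by simpa using h q hq) j q hq
  rw [iter_zero] at this
  simpa using this

theorem taylor (G : ℂ × ℂ → ℂ) (m : ℕ) (z w : ℂ) :
    G (z, w) = ∑ j ∈ Finset.range m, (S^[j] G) (z, 0) * w ^ j + w ^ m * (S^[m] G) (z, w) := by
  induction m with
  | zero => simp
  | succ m ih =>
    rw [ih, Finset.sum_range_succ, Function.iterate_succ_apply', S_spec (S^[m] G) z w]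
    ring

/-! ### The nonlinear term -/

/-- `x^i - y^i = (x - y) p_i(x,y)` -/
def gs (i : ℕ) (x y : ℂ) : ℂ := ∑ l ∈ Finset.range i, x ^ l * y ^ (i - 1 - l)

theorem gs_spec (i : ℕ) (x y : ℂ) : (x - y) * gs i x y = x ^ i - y ^ i := by
  have := (Commute.all x y).mul_geom_sum₂ i
  exact this

/-- The nonlinear term. -/
noncomputable def Psi (m : ℕ) (v : ℂ × ℂ × ℂ × (Fin m → ℂ)) : ℂ :=
  v.2.2.1 ^ 2 * ∑ i ∈ Finset.range (m + 1), gs i (v.2.1 + v.1 * v.2.2.1) v.2.1 * v.2.1 ^ (m - i) +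
    ∑ j : Fin m, v.2.2.2 j * v.2.2.1 * gs j (v.2.1 + v.1 * v.2.2.1) v.2.1

theorem Psi_spec (m : ℕ) (z w φ : ℂ) (a : Fin m → ℂ) :
    (w + z * φ) ^ (m + 1) + ∑ j : Fin m, z * a j * (w + z * φ) ^ (j : ℕ) =
      w ^ (m + 1) + z * (((m : ℂ) + 1) * w ^ m * φ + ∑ j : Fin m, a j * w ^ (j : ℕ)) +
        z ^ 2 * Psi m (z, w, φ, a) := by
  have h1 : ∀ i : ℕ, (w + z * φ) ^ i = w ^ i + z * φ * gs i (w + z * φ) w := by
    intro i
    have := gs_spec i (w + z * φ) w
    rw [add_sub_cancel_left] at this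
    rw [this]; ring
  have h2 : gs (m + 1) (w + z * φ) w = ((m : ℂ) + 1) * w ^ m +
      z * φ * ∑ i ∈ Finset.range (m + 1), gs i (w + z * φ) w * w ^ (m - i) := by
    have h3 : gs (m + 1) (w + z * φ) w =
        ∑ i ∈ Finset.range (m + 1), (w + z * φ) ^ i * w ^ (m - i) := by
      unfold gs
      refine Finset.sum_congr rfl fun i _ => ?_
      simp
    rw [h3]
    have h4 : ∀ i ∈ Finset.range (m + 1), (w + z * φ) ^ i * w ^ (m - i) =
        w ^ m + z * φ * (gs i (w + z * φ) w * w ^ (m - i)) := by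
      intro i hi
      have hi' : i ≤ m := Nat.lt_succ_iff.1 (Finset.mem_range.1 hi)
      have h5 : w ^ m = w ^ i * w ^ (m - i) := by
        rw [← pow_add, Nat.add_sub_cancel' hi']
      rw [h1 i, h5]; ring
    rw [Finset.sum_congr rfl h4, Finset.sum_add_distrib, Finset.mul_sum]
    simp
  have h6 : ∑ j : Fin m, z * a j * (w + z * φ) ^ (j : ℕ) =
      z * ∑ j : Fin m, a j * w ^ (j : ℕ) +
        z ^ 2 * ∑ j : Fin m, a j * φ * gs j (w + z * φ) w := by
    rw [Finset.mul_sum, Finset.mul_sum, ← Finset.sum_add_distrib]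
    refine Finset.sum_congr rfl fun j _ => ?_
    rw [h1 j]; ring
  rw [h1 (m + 1), h2, h6]
  simp only [Psi]
  ring

theorem Psi_contDiff (m : ℕ) : ContDiff ℝ 1 (Psi m) := by
  unfold Psi gs
  fun_prop

theorem Psi_diff (m : ℕ) : Differentiable ℂ (Psi m) := by
  unfold Psi gs
  fun_prop

end Pool.Agent.V1172.SK
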