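import Pool.Agent.V1172.SK.Fixed

/-!
Solution of the conjugacy equation.
-/

set_option autoImplicit false

open Set Filter Topology Metric

namespace Pool.Agent.V1172.SK

/-- The coefficient vector of `G`. -/
noncomputable def co (m : ℕ) (G : ℂ × ℂ → ℂ) (z : ℂ) : Fin m → ℂ := fun j => (S^[(j : ℕ)] G) (z, 0)

/-- The quotient `G / (c w^m)`. -/
noncomputable def ph (m : ℕ) (G : ℂ × ℂ → ℂ) (q : ℂ × ℂ) : ℂ := (S^[m] G) q / ((m : ℂ) + 1)

/-- The operator. -/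
noncomputable def Top (m e : ℕ) (h : ℂ × ℂ → ℂ) (G : ℂ × ℂ → ℂ) : ℂ × ℂ → ℂ := fun q =>
  h q + q.1 ^ (e + 1) * ph m G (q.1 ^ (e + 2), q.2 ^ (m + 1) + q.1 * h q) -
    q.1 * Psi m (q.1, q.2, ph m G q, co m G q.1)

theorem norm_nat_succ (m : ℕ) : ‖(m : ℂ) + 1‖ = (m : ℝ) + 1 := by
  have : ((m : ℂ) + 1) = ((m + 1 : ℕ) : ℂ) := by push_cast; rfl
  rw [this, Complex.norm_natCast]; push_cast; rfl

/-- Existence of the solution on a small polydisc. -/
theorem solve (m e : ℕ) (hm : 1 ≤ m) (h : ℂ × ℂ → ℂ) {ρ H : ℝ} (hρ0 : 0 < ρ) (hρ : ρ ≤ 1 / 2)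
    (hh : DifferentiableOn ℂ h (ball 0 ρ ×ˢ ball 0 ρ))
    (hH : ∀ q ∈ ball (0 : ℂ) ρ ×ˢ ball (0 : ℂ) ρ, ‖h q‖ ≤ H) :
    ∃ r > 0, r ≤ ρ ∧ ∃ G : ℂ × ℂ → ℂ, DifferentiableOn ℂ G (ball 0 r ×ˢ ball 0 ρ) ∧
      (∀ q ∈ ball (0 : ℂ) r ×ˢ ball (0 : ℂ) ρ,
        (q.1 ^ (e + 2), q.2 ^ (m + 1) + q.1 * h q) ∈ ball (0 : ℂ) r ×ˢ ball (0 : ℂ) ρ) ∧
      ∀ q ∈ ball (0 : ℂ) r ×ˢ ball (0 : ℂ) ρ, Top m e h G q = G q := by
  have hH0 : 0 ≤ H := by
    have := hH (0, 0) ⟨mem_ball_self hρ0, mem_ball_self hρ0⟩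
    exact (norm_nonneg _).trans this
  obtain ⟨C, hCdef⟩ : ∃ C : ℝ, C = H + 1 := ⟨_, rfl⟩
  have hC0 : 0 ≤ C := by rw [hCdef]; linarith
  obtain ⟨κ, hκdef⟩ : ∃ κ : ℝ, κ = (2 / ρ) ^ m := ⟨_, rfl⟩
  have hκ1 : 1 ≤ 2 / ρ := by rw [le_div_iff₀ hρ0]; linarith
  have hκ0 : 0 ≤ κ := by rw [hκdef]; positivity
  have hκj : ∀ j ≤ m, (2 / ρ) ^ j ≤ κ := by
    intro j hj
    rw [hκdef]
    exact pow_le_pow_right₀ hκ1 hj
  obtain ⟨B, hBdef⟩ : ∃ B : ℝ, B = max 1 (κ * C) := ⟨_, rfl⟩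
  have hB1 : 1 ≤ B := by rw [hBdef]; exact le_max_left _ _
  have hBκ : κ * C ≤ B := by rw [hBdef]; exact le_max_right _ _
  -- bounds for Psi on the ball of radius B
  obtain ⟨K0, hK0⟩ : ∃ K0 : ℝ, ∀ v ∈ closedBall (0 : ℂ × ℂ × ℂ × (Fin m → ℂ)) B,
      ‖Psi m v‖ ≤ K0 :=
    (isCompact_closedBall _ _).exists_bound_of_continuousOn (Psi_diff m).continuous.continuousOn
  obtain ⟨L, hL⟩ := (Psi_contDiff m).contDiffOn.exists_lipschitzOnWith (n := 1) one_ne_zero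
    (convex_closedBall (0 : ℂ × ℂ × ℂ × (Fin m → ℂ)) B) (isCompact_closedBall _ _)
  have hK00 : 0 ≤ K0 := (norm_nonneg _).trans (hK0 0 (by
    rw [mem_closedBall_zero_iff, norm_zero]; linarith))
  have hL0 : (0 : ℝ) ≤ L := L.coe_nonneg
  obtain ⟨Q, hQdef⟩ : ∃ Q : ℝ, Q = 2 * H + κ * C + K0 + 2 * κ + 2 * (L * κ) + 1 := ⟨_, rfl⟩
  have hκC : 0 ≤ κ * C := mul_nonneg hκ0 hC0
  have hLκ : 0 ≤ (L : ℝ) * κ := mul_nonneg hL0 hκ0
  have hQ1 : 1 ≤ Q := by rw [hQdef]; linarith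
  obtain ⟨r, hrdef⟩ : ∃ r : ℝ, r = ρ / Q := ⟨_, rfl⟩
  have hr0 : 0 < r := by rw [hrdef]; positivity
  have hrρ : r ≤ ρ := by rw [hrdef]; exact div_le_self hρ0.le hQ1
  have hrQ : r * Q = ρ := by rw [hrdef]; field_simp
  have hr1 : r * (κ * C + K0) ≤ 1 := by
    have : r * (κ * C + K0) ≤ r * Q := mul_le_mul_of_nonneg_left (by rw [hQdef]; linarith) hr0.le
    linarith
  have hr2 : r * (κ + L * κ) ≤ 1 / 2 := by
    have : r * (2 * (κ + L * κ)) ≤ r * Q :=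
      mul_le_mul_of_nonneg_left (by rw [hQdef]; linarith) hr0.le
    linarith
  have hr3 : r * H ≤ ρ / 2 := by
    have : r * (2 * H) ≤ r * Q :=
      mul_le_mul_of_nonneg_left (by rw [hQdef]; linarith) hr0.le
    linarith
  set D : Set (ℂ × ℂ) := ball (0 : ℂ) r ×ˢ ball (0 : ℂ) ρ with hD
  have hDo : IsOpen D := isOpen_ball.prod isOpen_ball
  have hDsub : D ⊆ ball (0 : ℂ) ρ ×ˢ ball (0 : ℂ) ρ :=
    prod_mono (ball_subset_ball hrρ) Subset.rfl
  have hhD : DifferentiableOn ℂ h D := hh.mono hDsub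
  have hf : ∀ q ∈ D, (q.1 ^ (e + 2), q.2 ^ (m + 1) + q.1 * h q) ∈ D := by
    rintro ⟨z, w⟩ hq
    have hz : ‖z‖ < r := mem_ball_zero_iff.1 hq.1
    have hw : ‖w‖ < ρ := mem_ball_zero_iff.1 hq.2
    have hz1 : ‖z‖ ≤ 1 := by linarith
    have hw1 : ‖w‖ ≤ 1 := by linarith
    constructor
    · rw [mem_ball_zero_iff]
      simp only
      rw [norm_pow]
      calc ‖z‖ ^ (e + 2) ≤ ‖z‖ ^ 1 := pow_le_pow_of_le_one (norm_nonneg _) hz1 (by omega)
        _ < r := by rw [pow_one]; exact hz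
    · rw [mem_ball_zero_iff]
      simp only
      have h1 : ‖w ^ (m + 1)‖ < ρ / 2 := by
        rw [norm_pow]
        calc ‖w‖ ^ (m + 1) ≤ ‖w‖ ^ 2 := pow_le_pow_of_le_one (norm_nonneg _) hw1 (by omega)
          _ < ρ / 2 := by nlinarith [norm_nonneg w]
      have h2 : ‖z * h (z, w)‖ ≤ r * H := by
        rw [norm_mul]
        exact mul_le_mul hz.le (hH _ (hDsub hq)) (norm_nonneg _) hr0.le
      calc ‖w ^ (m + 1) + z * h (z, w)‖ ≤ ‖w ^ (m + 1)‖ + ‖z * h (z, w)‖ := norm_add_le _ _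
        _ < ρ := by linarith
  -- estimates for `ph` and `co`
  have hmC : ((m : ℂ) + 1) ≠ 0 := by exact_mod_cast Nat.succ_ne_zero m
  have hm1 : (1 : ℝ) ≤ (m : ℝ) + 1 := by
    have : (0 : ℝ) ≤ m := Nat.cast_nonneg m
    linarith
  have hzero : ∀ q ∈ D, (q.1, (0 : ℂ)) ∈ D := fun q hq => ⟨hq.1, mem_ball_self hρ0⟩
  have hphd : ∀ G, DifferentiableOn ℂ G D → DifferentiableOn ℂ (ph m G) D := by
    intro G hG
    have h1 : ph m G = fun q => (S^[m] G) q * ((m : ℂ) + 1)⁻¹ := by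
      ext q; unfold ph; rw [div_eq_mul_inv]
    rw [h1]
    exact (iter_diff hG m).mul_const _
  have hphb : ∀ G, DifferentiableOn ℂ G D → (∀ q ∈ D, ‖G q‖ ≤ C) → ∀ q ∈ D,
      ‖ph m G q‖ ≤ κ * C := by
    intro G hG hGC q hq
    have := iter_bound hG hGC m q hq
    unfold ph
    rw [norm_div, norm_nat_succ]
    refine (div_le_self (norm_nonneg _) hm1).trans ?_
    rw [hκdef]; exact this
  have hphs : ∀ G G', DifferentiableOn ℂ G D → DifferentiableOn ℂ G' D → ∀ Δ : ℝ,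
      (∀ q ∈ D, ‖G q - G' q‖ ≤ Δ) → ∀ q ∈ D, ‖ph m G q - ph m G' q‖ ≤ κ * Δ := by
    intro G G' hG hG' Δ hΔ q hq
    have := iter_sub hG hG' hΔ m q hq
    unfold ph
    rw [← sub_div, norm_div, norm_nat_succ]
    refine (div_le_self (norm_nonneg _) hm1).trans ?_
    rw [hκdef]; exact this
  have hcob : ∀ G, DifferentiableOn ℂ G D → (∀ q ∈ D, ‖G q‖ ≤ C) → ∀ q ∈ D,
      ‖co m G q.1‖ ≤ κ * C := by
    intro G hG hGC q hq
    rw [pi_norm_le_iff_of_nonneg hκC]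
    intro j
    refine (iter_bound hG hGC j _ (hzero q hq)).trans ?_
    exact mul_le_mul_of_nonneg_right (hκj _ j.2.le) hC0
  have hcos : ∀ G G', DifferentiableOn ℂ G D → DifferentiableOn ℂ G' D → ∀ Δ : ℝ, 0 ≤ Δ →
      (∀ q ∈ D, ‖G q - G' q‖ ≤ Δ) → ∀ q ∈ D, ‖co m G q.1 - co m G' q.1‖ ≤ κ * Δ := by
    intro G G' hG hG' Δ hΔ0 hΔ q hq
    rw [pi_norm_le_iff_of_nonneg (mul_nonneg hκ0 hΔ0)]
    intro j
    refine (iter_sub hG hG' hΔ j _ (hzero q hq)).trans ?_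
    exact mul_le_mul_of_nonneg_right (hκj _ j.2.le) hΔ0
  have hball : ∀ G, DifferentiableOn ℂ G D → (∀ q ∈ D, ‖G q‖ ≤ C) → ∀ q ∈ D,
      (q.1, q.2, ph m G q, co m G q.1) ∈ closedBall (0 : ℂ × ℂ × ℂ × (Fin m → ℂ)) B := by
    intro G hG hGC q hq
    have hz : ‖q.1‖ < r := mem_ball_zero_iff.1 hq.1
    have hw : ‖q.2‖ < ρ := mem_ball_zero_iff.1 hq.2
    rw [mem_closedBall_zero_iff, Prod.norm_def, Prod.norm_def, Prod.norm_def, max_le_iff,
      max_le_iff, max_le_iff]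
    exact ⟨by simp only; linarith, by simp only; linarith,
      (hphb G hG hGC q hq).trans hBκ, (hcob G hG hGC q hq).trans hBκ⟩
  have key : ∃ G, DifferentiableOn ℂ G D ∧ (∀ q ∈ D, ‖G q‖ ≤ C) ∧
      ∀ q ∈ D, Top m e h G q = G q := by
    refine fixed_point hDo hC0 (Top m e h) ?_ ?_
    · -- self map
      intro G hG hGC
      constructor
      · intro q hq
        have h1 : DifferentiableAt ℂ h q := (hhD q hq).differentiableAt (hDo.mem_nhds hq)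
        have h2 : DifferentiableAt ℂ (ph m G) (q.1 ^ (e + 2), q.2 ^ (m + 1) + q.1 * h q) :=
          (hphd G hG _ (hf q hq)).differentiableAt (hDo.mem_nhds (hf q hq))
        have h3 : DifferentiableAt ℂ (fun q : ℂ × ℂ =>
            (q.1 ^ (e + 2), q.2 ^ (m + 1) + q.1 * h q)) q := by fun_prop
        have h4 : DifferentiableAt ℂ (fun q : ℂ × ℂ =>
            ph m G (q.1 ^ (e + 2), q.2 ^ (m + 1) + q.1 * h q)) q :=
          DifferentiableAt.comp q (f := fun q : ℂ × ℂ =>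
            (q.1 ^ (e + 2), q.2 ^ (m + 1) + q.1 * h q)) h2 h3
        have h5 : DifferentiableAt ℂ (ph m G) q := (hphd G hG q hq).differentiableAt
          (hDo.mem_nhds hq)
        have h6 : DifferentiableAt ℂ (fun q : ℂ × ℂ => co m G q.1) q := by
          rw [differentiableAt_pi]
          intro j
          have h7 : DifferentiableAt ℂ (S^[(j : ℕ)] G) (q.1, 0) :=
            (iter_diff hG j _ (hzero q hq)).differentiableAt (hDo.mem_nhds (hzero q hq))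
          have h8 : DifferentiableAt ℂ (fun q : ℂ × ℂ => (q.1, (0 : ℂ))) q := by fun_prop
          exact DifferentiableAt.comp q (f := fun q : ℂ × ℂ => (q.1, (0 : ℂ))) h7 h8
        have h9 : DifferentiableAt ℂ (fun q : ℂ × ℂ => (q.1, q.2, ph m G q, co m G q.1)) q := by
          fun_prop
        have h10 : DifferentiableAt ℂ (fun q : ℂ × ℂ =>
            Psi m (q.1, q.2, ph m G q, co m G q.1)) q :=
          DifferentiableAt.comp q (f := fun q : ℂ × ℂ => (q.1, q.2, ph m G q, co m G q.1))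
            (Psi_diff m _) h9
        have h11 : DifferentiableAt ℂ (Top m e h G) q := by
          unfold Top
          fun_prop
        exact h11.differentiableWithinAt
      · intro q hq
        have hz : ‖q.1‖ < r := mem_ball_zero_iff.1 hq.1
        have hz1 : ‖q.1‖ ≤ 1 := by linarith
        have h1 : ‖q.1 ^ (e + 1) * ph m G (q.1 ^ (e + 2), q.2 ^ (m + 1) + q.1 * h q)‖ ≤
            r * (κ * C) := by
          rw [norm_mul, norm_pow]
          refine mul_le_mul ?_ (hphb G hG hGC _ (hf q hq)) (norm_nonneg _) hr0.le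
          calc ‖q.1‖ ^ (e + 1) ≤ ‖q.1‖ ^ 1 := pow_le_pow_of_le_one (norm_nonneg _) hz1 (by omega)
            _ ≤ r := by rw [pow_one]; exact hz.le
        have h2 : ‖q.1 * Psi m (q.1, q.2, ph m G q, co m G q.1)‖ ≤ r * K0 := by
          rw [norm_mul]
          exact mul_le_mul hz.le (hK0 _ (hball G hG hGC q hq)) (norm_nonneg _) hr0.le
        have h3 := hH q (hDsub hq)
        calc ‖Top m e h G q‖ ≤ ‖h q‖ +
              ‖q.1 ^ (e + 1) * ph m G (q.1 ^ (e + 2), q.2 ^ (m + 1) + q.1 * h q)‖ +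
              ‖q.1 * Psi m (q.1, q.2, ph m G q, co m G q.1)‖ := by
              refine (norm_sub_le _ _).trans ?_
              exact add_le_add (norm_add_le _ _) le_rfl
          _ ≤ C := by rw [hCdef]; linarith
    · -- contraction
      intro G G' hG hGC hG' hGC' Δ hΔ0 hΔ q hq
      have hz : ‖q.1‖ < r := mem_ball_zero_iff.1 hq.1
      have hz1 : ‖q.1‖ ≤ 1 := by linarith
      have h1 : ‖q.1 ^ (e + 1) * (ph m G (q.1 ^ (e + 2), q.2 ^ (m + 1) + q.1 * h q) -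
          ph m G' (q.1 ^ (e + 2), q.2 ^ (m + 1) + q.1 * h q))‖ ≤ r * (κ * Δ) := by
        rw [norm_mul, norm_pow]
        refine mul_le_mul ?_ (hphs G G' hG hG' Δ hΔ _ (hf q hq)) (norm_nonneg _) hr0.le
        calc ‖q.1‖ ^ (e + 1) ≤ ‖q.1‖ ^ 1 := pow_le_pow_of_le_one (norm_nonneg _) hz1 (by omega)
          _ ≤ r := by rw [pow_one]; exact hz.le
      have h2 : ‖Psi m (q.1, q.2, ph m G q, co m G q.1) -
          Psi m (q.1, q.2, ph m G' q, co m G' q.1)‖ ≤ L * (κ * Δ) := by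
        have h3 := hL.dist_le_mul _ (hball G hG hGC q hq) _ (hball G' hG' hGC' q hq)
        rw [dist_eq_norm, dist_eq_norm] at h3
        refine h3.trans (mul_le_mul_of_nonneg_left ?_ hL0)
        have hκΔ : 0 ≤ κ * Δ := mul_nonneg hκ0 hΔ0
        rw [Prod.norm_def, Prod.norm_def, Prod.norm_def, max_le_iff, max_le_iff, max_le_iff]
        refine ⟨by simpa using hκΔ, by simpa using hκΔ, ?_, ?_⟩
        · exact hphs G G' hG hG' Δ hΔ q hq
        · exact hcos G G' hG hG' Δ hΔ0 hΔ q hq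
      have h4 : ‖q.1 * (Psi m (q.1, q.2, ph m G q, co m G q.1) -
          Psi m (q.1, q.2, ph m G' q, co m G' q.1))‖ ≤ r * (L * (κ * Δ)) := by
        rw [norm_mul]
        exact mul_le_mul hz.le h2 (norm_nonneg _) hr0.le
      have h5 : Top m e h G q - Top m e h G' q =
          q.1 ^ (e + 1) * (ph m G (q.1 ^ (e + 2), q.2 ^ (m + 1) + q.1 * h q) -
          ph m G' (q.1 ^ (e + 2), q.2 ^ (m + 1) + q.1 * h q)) -
          q.1 * (Psi m (q.1, q.2, ph m G q, co m G q.1) -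
          Psi m (q.1, q.2, ph m G' q, co m G' q.1)) := by
        unfold Top; ring
      rw [h5]
      refine (norm_sub_le _ _).trans ?_
      have h6 : r * (κ * Δ) + r * (L * (κ * Δ)) = (r * (κ + L * κ)) * Δ := by ring
      have h7 : (r * (κ + L * κ)) * Δ ≤ 1 / 2 * Δ := mul_le_mul_of_nonneg_right hr2 hΔ0
      linarith
  obtain ⟨G, hG1, _, hG3⟩ := key
  exact ⟨r, hr0, hrρ, G, hG1, hf, hG3⟩

/-- The conjugacy equation. -/
theorem conj_eq (m e : ℕ) (h G : ℂ × ℂ → ℂ) (z w : ℂ) (hG : Top m e h G (z, w) = G (z, w)) :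
    (w + z * ph m G (z, w)) ^ (m + 1) +
        ∑ j : Fin m, z * co m G z j * (w + z * ph m G (z, w)) ^ (j : ℕ) =
      (w ^ (m + 1) + z * h (z, w)) +
        z ^ (e + 2) * ph m G (z ^ (e + 2), w ^ (m + 1) + z * h (z, w)) := by
  rw [Psi_spec]
  have hmC : ((m : ℂ) + 1) ≠ 0 := by exact_mod_cast Nat.succ_ne_zero m
  have h1 : ((m : ℂ) + 1) * w ^ m * ph m G (z, w) + ∑ j : Fin m, co m G z j * w ^ (j : ℕ) =
      G (z, w) := by
    rw [taylor G m z w, Finset.sum_range]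
    unfold ph co
    field_simp
    ring
  rw [h1, ← hG]
  unfold Top
  simp only
  ring

end Pool.Agent.V1172.SK
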